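import Pool.Agent.Lib.MP_c80d0d_ag.Main

/-!
Conrad's question, stated with the coordinate ring `k[ε][x_ij][1/det]` of `GL_n`, a closed
immersion of schemes, and the group law on points.
-/

set_option autoImplicit false

open scoped TensorProduct
open AlgebraicGeometry

namespace Pool.Agent.Results.MP_c80d0d_ag.ClosedInGL

theorem aux (R A : Type) [CommRing R] [CommRing A] [HopfAlgebra R A] (n : ℕ)
    (a : Fin n → Fin n → A)
    (h1 : ∀ i j : Fin n, CoalgebraStruct.comul (R := R) (a i j) = ∑ l : Fin n, a i l ⊗ₜ[R] a l j)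
    (h2 : ∀ i j : Fin n, CoalgebraStruct.counit (R := R) (a i j) = if i = j then 1 else 0)
    (h3 : Algebra.adjoin R (Set.range (fun ij : Fin n × Fin n => a ij.1 ij.2) ∪
        Set.range (fun ij : Fin n × Fin n => HopfAlgebra.antipode R (a ij.1 ij.2))) = ⊤) :
    ∃ φ : Localization.Away (Matrix.mvPolynomialX (Fin n) (Fin n) R).det →ₐ[R] A,
      Function.Surjective φ ∧
      ∀ (S : Type) [CommRing S] [Algebra R S],
        ∃ ρ : WithConv (A →ₐ[R] S) →* GL (Fin n) S, Function.Injective ρ ∧
          ∀ (g : WithConv (A →ₐ[R] S)) (i j : Fin n),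
            (ρ g : Matrix (Fin n) (Fin n) S) i j
              = g.ofConv (φ (algebraMap (MvPolynomial (Fin n × Fin n) R) _
                  (MvPolynomial.X (i, j)))) := by
  classical
  let M : Matrix (Fin n) (Fin n) A := Matrix.of fun i j => a i j
  let N : Matrix (Fin n) (Fin n) A := Matrix.of fun i j => HopfAlgebra.antipode R (a i j)
  have hNM : N * M = 1 := by
    ext i j
    have := HopfAlgebra.mul_antipode_rTensor_comul_apply (R := R) (a i j)
    rw [h1, h2, map_sum, map_sum] at this
    rw [Matrix.mul_apply, Matrix.one_apply]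
    simp only [LinearMap.rTensor_tmul, LinearMap.mul'_apply] at this
    refine this.trans ?_
    split_ifs <;> simp
  have hMN : M * N = 1 := mul_eq_one_comm.1 hNM
  have hρ : ∀ (S : Type) [CommRing S] [Algebra R S],
      ∃ ρ : WithConv (A →ₐ[R] S) →* GL (Fin n) S,
        ∀ g i j, (ρ g : Matrix (Fin n) (Fin n) S) i j = g.ofConv (a i j) := by
    intro S _ _
    let m : WithConv (A →ₐ[R] S) →* Matrix (Fin n) (Fin n) S :=
      { toFun := fun g => Matrix.of fun i j => g.ofConv (a i j)
        map_one' := by
          ext i j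
          have := AlgHom.convOne_apply (R := R) (A := S) (a i j)
          rw [Matrix.of_apply, Matrix.one_apply]
          refine this.trans ?_
          rw [h2]
          split_ifs <;> simp
        map_mul' := fun g h => by
          ext i j
          have := AlgHom.convMul_apply g h (a i j)
          rw [Matrix.of_apply, Matrix.mul_apply]
          refine this.trans ?_
          rw [h1, map_sum]
          simp }
    have hm : ∀ g, m g = g.ofConv.mapMatrix M := fun g => rfl
    let σ : WithConv (A →ₐ[R] S) →* (Matrix (Fin n) (Fin n) S)ˣ :=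
      { toFun := fun g => ⟨m g, g.ofConv.mapMatrix N, by rw [hm, ← map_mul, hMN, map_one],
          by rw [hm, ← map_mul, hNM, map_one]⟩
        map_one' := Units.ext (map_one m)
        map_mul' := fun g h => Units.ext (map_mul m g h) }
    exact ⟨σ, fun g i j => rfl⟩
  have hMi : ∀ i j, HopfAlgebra.antipode R (a i j) = M⁻¹ i j := by
    intro i j
    rw [Matrix.inv_eq_left_inv hNM]
    rfl
  have hdet : IsUnit M.det := Matrix.isUnit_det_of_left_inverse hNM
  let ev : MvPolynomial (Fin n × Fin n) R →ₐ[R] A := MvPolynomial.aeval fun ij => a ij.1 ij.2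
  have hev : (Matrix.mvPolynomialX (Fin n) (Fin n) R).map ev = M := by
    ext i j
    simp [ev, M]
  have hevd : ev (Matrix.mvPolynomialX (Fin n) (Fin n) R).det = M.det := by
    rw [← hev]
    exact AlgHom.map_det ev _
  let φ : Localization.Away (Matrix.mvPolynomialX (Fin n) (Fin n) R).det →ₐ[R] A :=
    IsLocalization.liftAlgHom (M := Submonoid.powers (Matrix.mvPolynomialX (Fin n) (Fin n) R).det)
      (f := ev) (by
        rintro ⟨_, m, rfl⟩
        simp only [map_pow, hevd]
        exact hdet.pow m)
  have hφ : ∀ x, φ (algebraMap (MvPolynomial (Fin n × Fin n) R) _ x) = ev x := by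
    intro x
    simp [φ]
  have hφX : ∀ i j, φ (algebraMap (MvPolynomial (Fin n × Fin n) R) _ (MvPolynomial.X (i, j)))
      = a i j := by
    intro i j
    rw [hφ]
    simp [ev]
  have hs : Function.Surjective φ := by
    rw [← AlgHom.range_eq_top, eq_top_iff, ← h3, Algebra.adjoin_le_iff]
    rintro x (⟨ij, rfl⟩ | ⟨ij, rfl⟩)
    · exact ⟨_, hφX _ _⟩
    · have hinv : Ring.inverse M.det = φ (IsLocalization.Away.invSelf
          (Matrix.mvPolynomialX (Fin n) (Fin n) R).det) := by
        have e : M.det * φ (IsLocalization.Away.invSelf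
            (Matrix.mvPolynomialX (Fin n) (Fin n) R).det) = 1 := by
          rw [← hevd, ← hφ, ← map_mul, IsLocalization.Away.mul_invSelf, map_one]
        calc Ring.inverse M.det = Ring.inverse M.det * (M.det * φ (IsLocalization.Away.invSelf
            (Matrix.mvPolynomialX (Fin n) (Fin n) R).det)) := by rw [e, mul_one]
          _ = _ := by rw [← mul_assoc, Ring.inverse_mul_cancel _ hdet, one_mul]
      have hadj : M.adjugate ij.1 ij.2
          = ev ((Matrix.mvPolynomialX (Fin n) (Fin n) R).adjugate ij.1 ij.2) := by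
        rw [← hev]
        have := AlgHom.map_adjugate ev (Matrix.mvPolynomialX (Fin n) (Fin n) R)
        exact (congrFun (congrFun this ij.1) ij.2).symm
      change HopfAlgebra.antipode R (a ij.1 ij.2) ∈ φ.range
      rw [hMi, Matrix.inv_def, Matrix.smul_apply, smul_eq_mul, hinv, hadj, ← hφ, ← map_mul]
      exact ⟨_, rfl⟩
  refine ⟨φ, hs, fun S _ _ => ?_⟩
  obtain ⟨σ, hσ⟩ := hρ S
  refine ⟨σ, fun g h hgh => ?_, fun g i j => by rw [hσ, hφX]⟩
  have e : g.ofConv.comp φ = h.ofConv.comp φ := by
    apply IsLocalization.algHom_ext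
      (Submonoid.powers (Matrix.mvPolynomialX (Fin n) (Fin n) R).det)
    ext ij
    have := hσ g ij.1 ij.2
    rw [hgh, hσ] at this
    change g.ofConv (φ (algebraMap (MvPolynomial (Fin n × Fin n) R) _ (MvPolynomial.X (ij.1, ij.2))))
      = h.ofConv (φ (algebraMap (MvPolynomial (Fin n × Fin n) R) _ (MvPolynomial.X (ij.1, ij.2))))
    rw [hφX]
    exact this.symm
  apply WithConv.ext
  ext x
  obtain ⟨y, rfl⟩ := hs x
  exact congr($e y)

/-- Let `k` be a field of characteristic `p > 0` and `G = Spec A` a smooth affine group scheme over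
`k[ε]`. For some `n` there is a `k[ε]`-algebra map `φ` from the coordinate ring
`k[ε][x_ij][1/det]` of `GL_n` to `A` such that `Spec φ : G → GL_n` is a closed immersion and, for
every commutative `k[ε]`-algebra `S`, the induced map on `S`-points `g ↦ (g (φ x_ij))` is an
injective group homomorphism `G(S) → GL_n(S)`. -/
theorem result (p : ℕ) (hp : p.Prime) (k : Type) [Field k] [CharP k p]
    (A : Type) [CommRing A] [HopfAlgebra (DualNumber k) A] [Algebra.Smooth (DualNumber k) A] :
    ∃ (n : ℕ) (φ : Localization.Away (Matrix.mvPolynomialX (Fin n) (Fin n) (DualNumber k)).det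
        →ₐ[DualNumber k] A),
      IsClosedImmersion (Spec.map (CommRingCat.ofHom φ.toRingHom)) ∧
      ∀ (S : Type) [CommRing S] [Algebra (DualNumber k) S],
        ∃ ρ : WithConv (A →ₐ[DualNumber k] S) →* GL (Fin n) S, Function.Injective ρ ∧
          ∀ (g : WithConv (A →ₐ[DualNumber k] S)) (i j : Fin n),
            (ρ g : Matrix (Fin n) (Fin n) S) i j
              = g.ofConv (φ (algebraMap (MvPolynomial (Fin n × Fin n) (DualNumber k)) _
                  (MvPolynomial.X (i, j)))) := by
  obtain ⟨n, a, h1, h2, h3⟩ :=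
    Pool.Agent.Lib.MP_c80d0d_ag.linear_of_smooth k (DualNumber k) A p hp
  obtain ⟨φ, hs, h⟩ := aux (DualNumber k) A n a h1 h2 h3
  exact ⟨n, φ, IsClosedImmersion.spec_of_surjective _ hs, h⟩

end Pool.Agent.Results.MP_c80d0d_ag.ClosedInGL
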